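import Pool.Agent.K22T.Final
set_option autoImplicit false

/-!
# MP_9ec287_co, Q1

For every constant `c < 1/16`, for all large `n`, every graph with `n` vertices and at least
`q̄(n) + 1` edges contains `K(2,2,t)` for some `t ≥ c n`.
-/

namespace Pool.Agent.Results.MP_9ec287_co.Full

open SimpleGraph

/-- `G ∈ Q(n)`: for some vertex class `A`, every vertex of `A` is joined to every vertex outside
`A`, and neither of the two classes `A`, `Aᶜ` spans a quadrilateral (a cycle of length four,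
not necessarily induced). -/
def MemQ {n : ℕ} (G : SimpleGraph (Fin n)) : Prop :=
  ∃ A : Set (Fin n), (∀ a ∈ A, ∀ b ∉ A, G.Adj a b) ∧
    ¬ (cycleGraph 4).IsContained (G.induce A) ∧ ¬ (cycleGraph 4).IsContained (G.induce Aᶜ)

/-- `q̄(n)`: the maximum number of edges of a graph in `Q(n)` -/
noncomputable def qbar (n : ℕ) : ℕ :=
  sSup {m : ℕ | ∃ G : SimpleGraph (Fin n), MemQ G ∧ G.edgeSet.ncard = m}

/-- `K(2,2,t)`: the complete tripartite graph with classes of sizes `2`, `2` and `t` -/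
def K22 (t : ℕ) : SimpleGraph ((i : Fin 3) × Fin (![2, 2, t] i)) :=
  completeMultipartiteGraph fun i : Fin 3 => Fin (![2, 2, t] i)

theorem memQ_iff {n : ℕ} (G : SimpleGraph (Fin n)) : MemQ G ↔ K22T.InQ G := by
  unfold MemQ K22T.InQ
  constructor
  · rintro ⟨A, h1, h2, h3⟩
    exact ⟨A, fun a ha b hb => h1 a ha b hb, (K22T.Fin.c4free_iff G A).2 h2,
      (K22T.Fin.c4free_iff G Aᶜ).2 h3⟩
  · rintro ⟨A, h1, h2, h3⟩
    exact ⟨A, fun a ha b hb => h1 a ha b hb, (K22T.Fin.c4free_iff G A).1 h2,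
      (K22T.Fin.c4free_iff G Aᶜ).1 h3⟩

theorem qbar_eq (n : ℕ) : qbar n = K22T.qbar n := by
  unfold qbar K22T.qbar
  simp only [memQ_iff]

/-- **Answer to Q1 (the statement is proved).** The first part records that `qbar n` really is the
maximum in its definition. -/
theorem result :
    (∀ n : ℕ, IsGreatest {m : ℕ | ∃ G : SimpleGraph (Fin n), MemQ G ∧ G.edgeSet.ncard = m}
      (qbar n)) ∧
    ∀ c : ℝ, c < 1 / 16 → ∃ n₀ : ℕ, ∀ n : ℕ, n₀ ≤ n → ∀ G : SimpleGraph (Fin n),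
      qbar n + 1 ≤ G.edgeSet.ncard → ∃ t : ℕ, c * n ≤ t ∧ (K22 t).IsContained G := by
  refine ⟨fun n => ⟨?_, ?_⟩, ?_⟩
  · obtain ⟨G, h1, h2⟩ := K22T.E7.qbar_mem n
    exact ⟨G, (memQ_iff G).2 h1, by rw [h2, qbar_eq]⟩
  · rintro m ⟨G, h1, rfl⟩
    have := K22T.E7.le_qbar G ((memQ_iff G).1 h1)
    rw [Fintype.card_fin] at this
    rwa [qbar_eq]
  · intro c hc
    obtain ⟨n₀, h⟩ := K22T.Final.main c hc
    refine ⟨n₀, fun n hn G hG => ?_⟩
    rw [qbar_eq] at hG
    exact h n hn G hG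

end Pool.Agent.Results.MP_9ec287_co.Full
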